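import Pool.Agent.W682.BQ.Stm

/-! Project BQ: interchange of the two variables. -/

set_option autoImplicit false

namespace Pool.Agent.W790.BQ.Swap

open MeasureTheory Set Filter Topology
open Pool.Agent.W488.IW Pool.Agent.W488.IX Pool.Agent.W682.BQ
open Pool.Agent.W360.BQ (Cf Vg QCF S_FLOWF S_NULLF)

/-- the coefficients of the conjugate function -/
noncomputable def cc (c : Idx → ℂ) (k : Idx) : ℂ := (starRingEnd ℂ) (c (-k))

theorem ka_conj (k : Idx) : (starRingEnd ℂ) (ka (-k)) = kb k := by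
  unfold ka kb
  simp only [map_mul, map_sub, Complex.conj_I, Complex.conj_ofReal, Prod.fst_neg, Prod.snd_neg,
    Int.cast_neg, map_neg]
  have h1 : (starRingEnd ℂ) ((k.1 : ℤ) : ℂ) = ((k.1 : ℤ) : ℂ) := map_intCast _ _
  have h2 : (starRingEnd ℂ) ((k.2 : ℤ) : ℂ) = ((k.2 : ℤ) : ℂ) := map_intCast _ _
  rw [h1, h2]
  ring

theorem kb_conj (k : Idx) : (starRingEnd ℂ) (kb (-k)) = ka k := by
  unfold ka kb
  simp only [map_mul, map_add, Complex.conj_I, Complex.conj_ofReal, Prod.fst_neg, Prod.snd_neg,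
    Int.cast_neg, map_neg]
  have h1 : (starRingEnd ℂ) ((k.1 : ℤ) : ℂ) = ((k.1 : ℤ) : ℂ) := map_intCast _ _
  have h2 : (starRingEnd ℂ) ((k.2 : ℤ) : ℂ) = ((k.2 : ℤ) : ℂ) := map_intCast _ _
  rw [h1, h2]
  ring

theorem ek_conj (k : Idx) (x : V) : (starRingEnd ℂ) (ek (-k) x) = ek k x := by
  unfold ek
  rw [← Complex.exp_conj]
  congr 1
  simp only [map_mul, map_add, Complex.conj_I, Complex.conj_ofReal, Prod.fst_neg, Prod.snd_neg,
    Int.cast_neg, map_neg]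
  have h1 : (starRingEnd ℂ) ((k.1 : ℤ) : ℂ) = ((k.1 : ℤ) : ℂ) := map_intCast _ _
  have h2 : (starRingEnd ℂ) ((k.2 : ℤ) : ℂ) = ((k.2 : ℤ) : ℂ) := map_intCast _ _
  have h3 : (starRingEnd ℂ) (2 : ℂ) = 2 := Complex.conj_ofNat 2
  rw [h1, h2, h3]
  ring

theorem box_neg (N : ℕ) (k : Idx) : k ∈ box N ↔ -k ∈ box N := by
  unfold box
  simp only [Finset.mem_product, Finset.mem_Icc, Prod.fst_neg, Prod.snd_neg]
  constructor <;> rintro ⟨⟨h1, h2⟩, h3, h4⟩ <;> refine ⟨⟨?_, ?_⟩, ?_, ?_⟩ <;> linarith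

theorem tp_conj (N : ℕ) (w w' c : Idx → ℂ) (hw : ∀ k, (starRingEnd ℂ) (w (-k)) = w' k) (x : V) :
    tp (box N) w' (cc c) x = (starRingEnd ℂ) (tp (box N) w c x) := by
  unfold tp
  rw [map_sum]
  refine Finset.sum_bij (fun k _ => -k) (fun k hk => (box_neg N k).1 hk) (fun k _ k' _ h => neg_injective h)
    (fun k hk => ⟨-k, (box_neg N k).1 hk, neg_neg k⟩) fun k _ => ?_
  rw [map_mul, map_mul, hw, ek_conj]
  rfl

theorem main : S_SWAP := by
  intro f hf F0 N c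
  have h := hf ((starRingEnd ℂ) F0.2, (starRingEnd ℂ) F0.1) N (cc c)
  have e1 : ∀ x : V, (((starRingEnd ℂ) F0.2, (starRingEnd ℂ) F0.1) + gd (box N) (cc c) x : ℂ × ℂ) =
      ((starRingEnd ℂ) (F0 + gd (box N) c x).2, (starRingEnd ℂ) (F0 + gd (box N) c x).1) := by
    intro x
    unfold gd
    rw [tp_conj N kb ka c kb_conj, tp_conj N ka kb c ka_conj]
    ext <;> simp
  simp only [e1, RCLike.norm_conj] at h
  exact h

end Pool.Agent.W790.BQ.Swap
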